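import Mathlib

set_option autoImplicit false

/-!
K-convexity toolbox: sign vectors and the sup norm of the values on a set of vectors.
-/

namespace Pool.Agent.Lib.KCX

open Finset

/-- The sign vectors, as a finite set of real vectors. -/
noncomputable def cube (ι : Type*) [Fintype ι] [DecidableEq ι] : Finset (ι → ℝ) :=
  Fintype.piFinset fun _ => {1, -1}

/-- The sup norm of the values on a set of vectors: `pS S z = sup over s in S of |<s,z>|`. -/
noncomputable def pS {ι : Type*} [Fintype ι] (S : Set (ι → ℝ)) (z : ι → ℝ) : ℝ :=
  ⨆ s : S, |∑ i, s.1 i * z i|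

end Pool.Agent.Lib.KCX
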