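import Pool.Agent.Lib.KCX.Defs

set_option autoImplicit false

/-!
Module B1: Fourier analysis on the cube.
-/

namespace Pool.Agent.Lib.KCX

open Finset

variable {ι : Type*} [Fintype ι] [DecidableEq ι]

/-- The degree `j` part of a function on the cube. -/
noncomputable def Q (v : (ι → ℝ) → (ι → ℝ)) (j : ℕ) (η : ι → ℝ) (l : ι) : ℝ :=
  (∑ ε ∈ cube ι, (∑ S ∈ powersetCard j (univ : Finset ι), ∏ i ∈ S, (ε i * η i)) * v ε l)
    / 2 ^ Fintype.card ι

theorem Fr.mem_cube {ε : ι → ℝ} : ε ∈ cube ι ↔ ∀ i, ε i = 1 ∨ ε i = -1 := by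
  simp [cube, Fintype.mem_piFinset]

theorem Fr.sum_pair (f : ℝ → ℝ) : ∑ x ∈ ({1, -1} : Finset ℝ), f x = f 1 + f (-1) :=
  Finset.sum_pair (by norm_num)

theorem Fr.sum_cube (f : ι → ℝ → ℝ) :
    ∑ ε ∈ cube ι, ∏ i, f i (ε i) = ∏ i, (f i 1 + f i (-1)) := by
  unfold cube
  rw [← Finset.prod_univ_sum]
  exact Finset.prod_congr rfl fun i _ => Fr.sum_pair (f i)

theorem weights_sum (η : ι → ℝ) (ρ : ℝ) :
    ∑ ε ∈ cube ι, ∏ i, (1 + ρ * (ε i * η i)) = 2 ^ Fintype.card ι := by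
  rw [Fr.sum_cube (fun i x => 1 + ρ * (x * η i))]
  have : ∀ i ∈ (univ : Finset ι), (1 + ρ * (1 * η i) + (1 + ρ * (-1 * η i))) = 2 := by
    intro i _
    ring
  rw [Finset.prod_congr rfl this, Finset.prod_const, Finset.card_univ]

theorem weights_nonneg {ε η : ι → ℝ} (hε : ε ∈ cube ι) (hη : η ∈ cube ι) {ρ : ℝ}
    (h0 : 0 ≤ ρ) (h1 : ρ ≤ 1) : 0 ≤ ∏ i, (1 + ρ * (ε i * η i)) := by
  refine Finset.prod_nonneg fun i _ => ?_
  rcases Fr.mem_cube.1 hε i with h | h <;> rcases Fr.mem_cube.1 hη i with h' | h' <;>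
    rw [h, h'] <;> nlinarith

theorem Q_expand (v : (ι → ℝ) → (ι → ℝ)) (η : ι → ℝ) (l : ι) (ρ : ℝ) :
    (∑ ε ∈ cube ι, (∏ i, (1 + ρ * (ε i * η i))) * v ε l) / 2 ^ Fintype.card ι
      = ∑ j ∈ range (Fintype.card ι + 1), ρ ^ j * Q v j η l := by
  have key : ∀ ε : ι → ℝ, (∏ i, (1 + ρ * (ε i * η i))) * v ε l =
      ∑ j ∈ range (Fintype.card ι + 1), ρ ^ j *
        ((∑ S ∈ powersetCard j (univ : Finset ι), ∏ i ∈ S, (ε i * η i)) * v ε l) := by
    intro ε
    rw [Finset.prod_one_add, Finset.sum_powerset, Finset.card_univ, Finset.sum_mul]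
    refine Finset.sum_congr rfl fun j _ => ?_
    rw [← mul_assoc, Finset.mul_sum]
    congr 1
    refine Finset.sum_congr rfl fun S hS => ?_
    rw [Finset.prod_mul_distrib, Finset.prod_const, (Finset.mem_powersetCard.1 hS).2]
  simp only [key, Q]
  rw [Finset.sum_comm, Finset.sum_div]
  refine Finset.sum_congr rfl fun j _ => ?_
  rw [← Finset.mul_sum, mul_div_assoc]

theorem Q_one (v : (ι → ℝ) → (ι → ℝ)) (η : ι → ℝ) (l : ι) :
    Q v 1 η l = ∑ i, ((∑ ε ∈ cube ι, ε i * v ε l) / 2 ^ Fintype.card ι) * η i := by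
  have h1 : ∀ ε : ι → ℝ, (∑ S ∈ powersetCard 1 (univ : Finset ι), ∏ i ∈ S, (ε i * η i)) =
      ∑ i, ε i * η i := by
    intro ε
    rw [Finset.powersetCard_one, Finset.sum_map]
    refine Finset.sum_congr rfl fun i _ => ?_
    simp
  unfold Q
  simp only [h1]
  rw [Finset.sum_div]
  have h2 : ∀ ε ∈ cube ι, (∑ i, ε i * η i) * v ε l / 2 ^ Fintype.card ι =
      ∑ i, (ε i * v ε l) / 2 ^ Fintype.card ι * η i := by
    intro ε _
    rw [Finset.sum_mul, Finset.sum_div]
    exact Finset.sum_congr rfl fun i _ => by ring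
  rw [Finset.sum_congr rfl h2, Finset.sum_comm]
  refine Finset.sum_congr rfl fun i _ => ?_
  rw [← Finset.sum_mul, Finset.sum_div]

/-- orthogonality of the characters -/
theorem Fr.orth1 (S T : Finset ι) :
    ∑ η ∈ cube ι, (∏ i ∈ S, η i) * ∏ i ∈ T, η i = if S = T then 2 ^ Fintype.card ι else 0 := by
  have h1 : ∀ η : ι → ℝ, (∏ i ∈ S, η i) * ∏ i ∈ T, η i =
      ∏ i, ((if i ∈ S then η i else 1) * (if i ∈ T then η i else 1)) := by
    intro η
    rw [Finset.prod_mul_distrib, Finset.prod_ite_mem, Finset.prod_ite_mem, Finset.univ_inter,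
      Finset.univ_inter]
  simp only [h1]
  rw [Fr.sum_cube (fun i x => (if i ∈ S then x else 1) * (if i ∈ T then x else 1))]
  by_cases hST : S = T
  · rw [if_pos hST, hST]
    have : ∀ i ∈ (univ : Finset ι), ((if i ∈ T then (1 : ℝ) else 1) * (if i ∈ T then 1 else 1) +
        (if i ∈ T then -1 else 1) * (if i ∈ T then -1 else 1)) = 2 := by
      intro i _
      split_ifs <;> norm_num
    rw [Finset.prod_congr rfl this, Finset.prod_const, Finset.card_univ]
  · rw [if_neg hST]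
    obtain ⟨i, hi⟩ : ∃ i, ¬ (i ∈ S ↔ i ∈ T) := by
      by_contra hcon
      push Not at hcon
      exact hST (Finset.ext hcon)
    apply Finset.prod_eq_zero (Finset.mem_univ i)
    by_cases h1 : i ∈ S <;> by_cases h2 : i ∈ T <;> simp [h1, h2] at hi ⊢

/-- orthogonality of the points -/
theorem Fr.orth2 {ε ε' : ι → ℝ} (h : ε ∈ cube ι) (h' : ε' ∈ cube ι) :
    ∑ S ∈ (univ : Finset ι).powerset, ∏ i ∈ S, (ε i * ε' i) =
      if ε = ε' then 2 ^ Fintype.card ι else 0 := by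
  rw [← Finset.prod_one_add]
  by_cases he : ε = ε'
  · rw [if_pos he, ← he]
    have : ∀ i ∈ (univ : Finset ι), (1 + ε i * ε i) = 2 := by
      intro i _
      rcases Fr.mem_cube.1 h i with h1 | h1 <;> rw [h1] <;> norm_num
    rw [Finset.prod_congr rfl this, Finset.prod_const, Finset.card_univ]
  · rw [if_neg he]
    obtain ⟨i, hi⟩ := Function.ne_iff.1 he
    apply Finset.prod_eq_zero (Finset.mem_univ i)
    rcases Fr.mem_cube.1 h i with h1 | h1 <;> rcases Fr.mem_cube.1 h' i with h2 | h2 <;>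
      rw [h1, h2] at hi ⊢
    · exact absurd rfl hi
    · norm_num
    · norm_num
    · exact absurd rfl hi

theorem Q_parseval (v : (ι → ℝ) → (ι → ℝ)) (j : ℕ) (l : ι) :
    ∑ η ∈ cube ι, (Q v j η l) ^ 2 ≤ ∑ ε ∈ cube ι, (v ε l) ^ 2 := by
  set N : ℝ := 2 ^ Fintype.card ι with hN
  have hNpos : 0 < N := by positivity
  set c : Finset ι → ℝ := fun S => ∑ ε ∈ cube ι, (∏ i ∈ S, ε i) * v ε l with hc
  have hQ : ∀ η, Q v j η l = (∑ S ∈ powersetCard j (univ : Finset ι), c S * ∏ i ∈ S, η i) / N := by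
    intro η
    unfold Q
    congr 1
    simp only [hc, Finset.sum_mul]
    rw [Finset.sum_comm]
    refine Finset.sum_congr rfl fun S _ => Finset.sum_congr rfl fun ε _ => ?_
    rw [Finset.prod_mul_distrib]
    ring
  have hsum : ∑ η ∈ cube ι, (Q v j η l) ^ 2 = (∑ S ∈ powersetCard j (univ : Finset ι), c S ^ 2) / N := by
    have e1 : ∀ η ∈ cube ι, (Q v j η l) ^ 2 =
        ∑ S ∈ powersetCard j (univ : Finset ι), ∑ T ∈ powersetCard j (univ : Finset ι),
          (c S * c T / N ^ 2) * ((∏ i ∈ S, η i) * ∏ i ∈ T, η i) := by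
      intro η _
      rw [hQ, div_pow, sq, Finset.sum_mul_sum, Finset.sum_div]
      refine Finset.sum_congr rfl fun S _ => ?_
      rw [Finset.sum_div]
      refine Finset.sum_congr rfl fun T _ => ?_
      ring
    rw [Finset.sum_congr rfl e1, Finset.sum_comm, Finset.sum_div]
    refine Finset.sum_congr rfl fun S hS => ?_
    rw [Finset.sum_comm]
    have e2 : ∀ T ∈ powersetCard j (univ : Finset ι),
        ∑ η ∈ cube ι, (c S * c T / N ^ 2) * ((∏ i ∈ S, η i) * ∏ i ∈ T, η i) =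
          if S = T then c S * c T / N ^ 2 * N else 0 := by
      intro T _
      rw [← Finset.mul_sum, Fr.orth1]
      split_ifs <;> simp [hN]
    rw [Finset.sum_congr rfl e2, Finset.sum_ite_eq, if_pos hS]
    field_simp
  have htot : (∑ S ∈ (univ : Finset ι).powerset, c S ^ 2) / N = ∑ ε ∈ cube ι, (v ε l) ^ 2 := by
    have e1 : ∀ S ∈ (univ : Finset ι).powerset, c S ^ 2 =
        ∑ ε ∈ cube ι, ∑ ε' ∈ cube ι, (v ε l * v ε' l) * ∏ i ∈ S, (ε i * ε' i) := by
      intro S _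
      rw [hc, sq, Finset.sum_mul_sum]
      refine Finset.sum_congr rfl fun ε _ => Finset.sum_congr rfl fun ε' _ => ?_
      rw [Finset.prod_mul_distrib]
      ring
    rw [Finset.sum_congr rfl e1, Finset.sum_comm, Finset.sum_div]
    refine Finset.sum_congr rfl fun ε hε => ?_
    rw [Finset.sum_comm]
    have e2 : ∀ ε' ∈ cube ι, ∑ S ∈ (univ : Finset ι).powerset,
        (v ε l * v ε' l) * ∏ i ∈ S, (ε i * ε' i) = if ε = ε' then v ε l * v ε' l * N else 0 := by
      intro ε' hε'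
      rw [← Finset.mul_sum, Fr.orth2 hε hε']
      split_ifs <;> simp [hN]
    rw [Finset.sum_congr rfl e2, Finset.sum_ite_eq, if_pos hε]
    field_simp
  rw [hsum, ← htot]
  apply div_le_div_of_nonneg_right _ hNpos.le
  exact Finset.sum_le_sum_of_subset_of_nonneg
    (fun S _ => Finset.mem_powerset.2 (Finset.subset_univ S)) fun S _ _ => sq_nonneg _

end Pool.Agent.Lib.KCX
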