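import Pool.Agent.Lib.KCX.Defs

/-!
Markov's inequality at the end point of the interval `[0, 1/2]`.
-/

set_option autoImplicit false

namespace Pool.Agent.Lib.KCX

open Polynomial

private theorem markov_one {m : ℕ} {R : ℝ[X]} (hdeg : R.degree ≤ m)
    (hR : ∀ x ∈ Set.Icc (-1 : ℝ) 1, |R.eval x| ≤ 1) : (derivative R).eval 1 ≤ (m : ℝ) ^ 2 := by
  have h := Polynomial.Chebyshev.eval_iterate_derivative_le_of_forall_abs_le_one (n := m) (P := R)
    (k := 1) (x := 1) le_rfl hdeg hR
  rw [Function.iterate_one, Polynomial.Chebyshev.derivative_T_eval_one] at h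
  simpa using h

private theorem markov_aux {m : ℕ} {P : ℝ[X]} (hdeg : P.natDegree ≤ m) {c : ℝ} (hc : 0 < c)
    (hB : ∀ x ∈ Set.Icc (0 : ℝ) (1 / 2), |P.eval x| ≤ c) :
    -P.coeff 1 ≤ 4 * (m : ℝ) ^ 2 * c := by
  set L : ℝ[X] := C (1 / 4) - C (1 / 4) * X with hL
  have hLd : L.natDegree ≤ 1 := by
    rw [hL]
    refine (natDegree_sub_le _ _).trans ?_
    simp only [natDegree_C, zero_le, sup_of_le_right]
    exact (natDegree_C_mul_le _ _).trans natDegree_X_le
  have hLe : ∀ x : ℝ, L.eval x = 1 / 4 - 1 / 4 * x := by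
    intro x
    simp [hL]
  have hLder : derivative L = C (-(1 / 4)) := by
    simp [hL]
  set R : ℝ[X] := C (1 / c) * P.comp L with hRdef
  have hRd : R.degree ≤ m := by
    rw [← natDegree_le_iff_degree_le]
    refine (natDegree_C_mul_le _ _).trans ?_
    refine natDegree_comp_le.trans ?_
    calc P.natDegree * L.natDegree ≤ m * 1 := Nat.mul_le_mul hdeg hLd
      _ = m := mul_one m
  have hRb : ∀ x ∈ Set.Icc (-1 : ℝ) 1, |R.eval x| ≤ 1 := by
    intro x hx
    rw [hRdef, eval_mul, eval_C, eval_comp, hLe, abs_mul, abs_of_pos (by positivity : 0 < 1 / c)]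
    have h1 := hB (1 / 4 - 1 / 4 * x) ⟨by linarith [hx.2], by linarith [hx.1]⟩
    rw [one_div, inv_mul_le_iff₀ hc, mul_one]
    exact h1
  have h := markov_one hRd hRb
  have h2 : (derivative R).eval 1 = 1 / c * (-(P.coeff 1) / 4) := by
    rw [hRdef, derivative_mul, derivative_C, zero_mul, zero_add, derivative_comp, hLder, eval_mul,
      eval_C, eval_mul, eval_C, eval_comp, hLe]
    have h3 : (derivative P).eval (1 / 4 - 1 / 4 * 1) = P.coeff 1 := by
      norm_num
      rw [← coeff_zero_eq_eval_zero, coeff_derivative]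
      simp
    rw [h3]
    ring
  rw [h2, one_div, inv_mul_le_iff₀ hc] at h
  linarith

/-- Module C. -/
theorem markov_zero {m : ℕ} {P : ℝ[X]} (hdeg : P.natDegree ≤ m) {B : ℝ}
    (hB : ∀ x ∈ Set.Icc (0 : ℝ) (1 / 2), |P.eval x| ≤ B) :
    |P.coeff 1| ≤ 4 * (m : ℝ) ^ 2 * B := by
  have hB0 : 0 ≤ B := (abs_nonneg _).trans (hB 0 ⟨le_rfl, by norm_num⟩)
  refine le_of_forall_pos_le_add fun e he => ?_
  have hm : 0 < 4 * (m : ℝ) ^ 2 + 1 := by positivity
  set d : ℝ := e / (4 * (m : ℝ) ^ 2 + 1) with hd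
  have hd0 : 0 < d := by positivity
  have hde : 4 * (m : ℝ) ^ 2 * d ≤ e := by
    rw [hd, mul_div_assoc', div_le_iff₀ hm]
    nlinarith
  have hc : 0 < B + d := by positivity
  have h1 := markov_aux hdeg hc fun x hx => (hB x hx).trans (by linarith)
  have h2 := markov_aux (P := -P) (m := m) (by rw [natDegree_neg]; exact hdeg) hc fun x hx => by
    rw [eval_neg, abs_neg]
    exact (hB x hx).trans (by linarith)
  rw [coeff_neg, neg_neg] at h2
  rw [abs_le]
  constructor <;> nlinarith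

end Pool.Agent.Lib.KCX
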