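import Pool.Agent.Lib.KCX.Urysohn
import Pool.Agent.Lib.KCX.Fourier
import Pool.Agent.Lib.KCX.Markov

set_option autoImplicit false

/-!
K-convexity on the cube: the degree one part of a function with values in a symmetric convex body
is not large in mean.
-/

namespace Pool.Agent.Lib.KCX

open Finset Polynomial

variable {ι : Type*} [Fintype ι] [DecidableEq ι]

set_option linter.unusedSectionVars false

/-- The value of a functional on the averaged function is at most one. -/
theorem abs_dot_noise_le (s : ι → ℝ) (v : (ι → ℝ) → (ι → ℝ))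
    (hv : ∀ ε ∈ cube ι, |∑ i, s i * v ε i| ≤ 1) {η : ι → ℝ} (hη : η ∈ cube ι) {ρ : ℝ}
    (h0 : 0 ≤ ρ) (h1 : ρ ≤ 1) :
    |∑ j ∈ range (Fintype.card ι + 1), ρ ^ j * ∑ l, s l * Q v j η l| ≤ 1 := by
  have h2 : ∑ j ∈ range (Fintype.card ι + 1), ρ ^ j * ∑ l, s l * Q v j η l
      = (∑ ε ∈ cube ι, (∏ i, (1 + ρ * (ε i * η i))) * ∑ l, s l * v ε l)
        / 2 ^ Fintype.card ι := by
    calc ∑ j ∈ range (Fintype.card ι + 1), ρ ^ j * ∑ l, s l * Q v j η l
        = ∑ l, s l * ∑ j ∈ range (Fintype.card ι + 1), ρ ^ j * Q v j η l := by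
          simp only [Finset.mul_sum]
          rw [Finset.sum_comm]
          refine Finset.sum_congr rfl fun l _ => Finset.sum_congr rfl fun j _ => by ring
      _ = ∑ l, s l * ((∑ ε ∈ cube ι, (∏ i, (1 + ρ * (ε i * η i))) * v ε l)
            / 2 ^ Fintype.card ι) := by
          refine Finset.sum_congr rfl fun l _ => ?_
          rw [Q_expand]
      _ = _ := by
          simp only [Finset.mul_sum, Finset.sum_div]
          rw [Finset.sum_comm]
          refine Finset.sum_congr rfl fun l _ => Finset.sum_congr rfl fun j _ => by ring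
  rw [h2, abs_div, abs_of_pos (show (0 : ℝ) < 2 ^ Fintype.card ι by positivity),
    div_le_one (by positivity)]
  calc |∑ ε ∈ cube ι, (∏ i, (1 + ρ * (ε i * η i))) * ∑ l, s l * v ε l|
      ≤ ∑ ε ∈ cube ι, |(∏ i, (1 + ρ * (ε i * η i))) * ∑ l, s l * v ε l| :=
        Finset.abs_sum_le_sum_abs _ _
    _ ≤ ∑ ε ∈ cube ι, ∏ i, (1 + ρ * (ε i * η i)) := by
        refine Finset.sum_le_sum fun ε hε => ?_
        rw [abs_mul, abs_of_nonneg (weights_nonneg hε hη h0 h1)]
        calc _ ≤ (∏ i, (1 + ρ * (ε i * η i))) * 1 :=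
              mul_le_mul_of_nonneg_left (hv ε hε) (weights_nonneg hε hη h0 h1)
          _ = _ := mul_one _
    _ = 2 ^ Fintype.card ι := weights_sum η ρ

/-- Cauchy's inequality in the form that is used for the tail. -/
theorem abs_dot_le (s q : ι → ℝ) (hs : ∑ i, s i ^ 2 ≤ 4) (b : ℝ) (hb : 0 < b) :
    |∑ i, s i * q i| ≤ b + (∑ i, q i ^ 2) / b := by
  have h1 : ∀ i, |s i * q i| ≤ (b / 4) * s i ^ 2 + q i ^ 2 / b := by
    intro i
    have h2 : 0 ≤ (b / 2 * |s i| - |q i|) ^ 2 := sq_nonneg _
    rw [abs_mul]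
    have h3 : s i ^ 2 = |s i| ^ 2 := (sq_abs _).symm
    have h4 : q i ^ 2 = |q i| ^ 2 := (sq_abs _).symm
    rw [h3, h4]
    have h5 : b / 4 * |s i| ^ 2 + |q i| ^ 2 / b - |s i| * |q i|
        = (b / 2 * |s i| - |q i|) ^ 2 / b := by
      field_simp
      ring
    have h6 : 0 ≤ (b / 2 * |s i| - |q i|) ^ 2 / b := by positivity
    linarith
  calc |∑ i, s i * q i| ≤ ∑ i, |s i * q i| := Finset.abs_sum_le_sum_abs _ _
    _ ≤ ∑ i, ((b / 4) * s i ^ 2 + q i ^ 2 / b) := Finset.sum_le_sum fun i _ => h1 i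
    _ = (b / 4) * ∑ i, s i ^ 2 + (∑ i, q i ^ 2) / b := by
        rw [Finset.sum_add_distrib, Finset.mul_sum, Finset.sum_div]
    _ ≤ _ := by
        have := mul_le_mul_of_nonneg_left hs (by positivity : 0 ≤ b / 4)
        linarith

/-- Module B2. -/
theorem kconvex (S : Set (ι → ℝ)) (hS : ∀ s ∈ S, ∑ i, s i ^ 2 ≤ 4)
    (v : (ι → ℝ) → (ι → ℝ)) (hv : ∀ ε ∈ cube ι, ∀ s ∈ S, |∑ i, s i * v ε i| ≤ 1)
    (b : ℝ) (hb : 0 < b) (hvb : ∀ ε ∈ cube ι, ∑ i, v ε i ^ 2 ≤ b ^ 2)
    (m : ℕ) (hm : 1 ≤ m) (hbm : 2 * b ≤ 2 ^ m) :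
    ∑ η ∈ cube ι, pS S (Q v 1 η) ≤ 8 * (m : ℝ) ^ 2 * 2 ^ Fintype.card ι := by
  classical
  set N := Fintype.card ι with hN
  -- the tail bound
  set B : (ι → ℝ) → ℝ := fun η =>
    1 + ∑ j ∈ (range (N + 1)).filter (fun j => m < j),
      (1 / 2 : ℝ) ^ j * (b + (∑ i, Q v j η i ^ 2) / b) with hB
  have hBpos : ∀ η, 0 ≤ B η := by
    intro η
    have : 0 ≤ ∑ j ∈ (range (N + 1)).filter (fun j => m < j),
      (1 / 2 : ℝ) ^ j * (b + (∑ i, Q v j η i ^ 2) / b) := by
      apply Finset.sum_nonneg
      intro j _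
      have : 0 ≤ (∑ i, Q v j η i ^ 2) := Finset.sum_nonneg fun i _ => sq_nonneg _
      positivity
    simp only [hB]
    linarith
  have hpt : ∀ η ∈ cube ι, pS S (Q v 1 η) ≤ 4 * (m : ℝ) ^ 2 * B η := by
    intro η hη
    rcases S.eq_empty_or_nonempty with hSe | hSne
    · have : pS S (Q v 1 η) = 0 := by
        unfold pS
        subst hSe
        exact Real.iSup_of_isEmpty _
      rw [this]
      have := hBpos η
      positivity
    · have : Nonempty S := hSne.to_subtype
      unfold pS
      apply ciSup_le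
      rintro ⟨s, hs⟩
      simp only
      set c : ℕ → ℝ := fun j => ∑ l, s l * Q v j η l with hc
      set P : ℝ[X] := ∑ j ∈ (range (N + 1)).filter (fun j => ¬ m < j), C (c j) * X ^ j with hP
      have hdeg : P.natDegree ≤ m := by
        apply Polynomial.natDegree_sum_le_of_forall_le
        intro j hj
        have hj' := (Finset.mem_filter.mp hj).2
        exact (Polynomial.natDegree_C_mul_X_pow_le _ _).trans (not_lt.mp hj')
      have heval : ∀ x : ℝ, P.eval x = ∑ j ∈ (range (N + 1)).filter (fun j => ¬ m < j),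
          x ^ j * c j := by
        intro x
        rw [hP, Polynomial.eval_finsetSum]
        refine Finset.sum_congr rfl fun j _ => ?_
        rw [Polynomial.eval_mul, Polynomial.eval_C, Polynomial.eval_pow, Polynomial.eval_X,
          mul_comm]
      have hbound : ∀ x ∈ Set.Icc (0 : ℝ) (1 / 2), |P.eval x| ≤ B η := by
        intro x hx
        have h1 := abs_dot_noise_le s v (fun ε hε => hv ε hε s hs) hη hx.1
          (hx.2.trans (by norm_num))
        have h2 : ∑ j ∈ range (N + 1), x ^ j * ∑ l, s l * Q v j η l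
            = (∑ j ∈ (range (N + 1)).filter (fun j => m < j), x ^ j * c j) + P.eval x := by
          rw [heval, Finset.sum_filter_add_sum_filter_not]
        rw [← hN] at h1
        rw [h2] at h1
        have h3 : |∑ j ∈ (range (N + 1)).filter (fun j => m < j), x ^ j * c j|
            ≤ ∑ j ∈ (range (N + 1)).filter (fun j => m < j),
              (1 / 2 : ℝ) ^ j * (b + (∑ i, Q v j η i ^ 2) / b) := by
          refine (Finset.abs_sum_le_sum_abs _ _).trans (Finset.sum_le_sum fun j _ => ?_)
          rw [abs_mul, abs_of_nonneg (pow_nonneg hx.1 j)]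
          apply mul_le_mul (pow_le_pow_left₀ hx.1 hx.2 j)
            (abs_dot_le s (Q v j η) (hS s hs) b hb) (abs_nonneg _) (by positivity)
        have h4 : |P.eval x| ≤ |(∑ j ∈ (range (N + 1)).filter (fun j => m < j), x ^ j * c j)
            + P.eval x| + |∑ j ∈ (range (N + 1)).filter (fun j => m < j), x ^ j * c j| := by
          have := abs_sub ((∑ j ∈ (range (N + 1)).filter (fun j => m < j), x ^ j * c j)
            + P.eval x) (∑ j ∈ (range (N + 1)).filter (fun j => m < j), x ^ j * c j)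
          simpa using this
        simp only [hB]
        linarith
      have hmain := markov_zero hdeg hbound
      by_cases hN1 : 1 < N + 1
      · have hcoeff : P.coeff 1 = c 1 := by
          rw [hP, Polynomial.finsetSum_coeff]
          rw [Finset.sum_eq_single 1]
          · simp
          · intro j _ hj
            rw [Polynomial.coeff_C_mul_X_pow]
            simp [Ne.symm hj]
          · intro h
            exfalso
            apply h
            simp only [Finset.mem_filter, Finset.mem_range]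
            exact ⟨hN1, by omega⟩
        rw [hcoeff] at hmain
        exact hmain
      · -- no coordinates at all
        have hcard : Fintype.card ι = 0 := by omega
        have : IsEmpty ι := Fintype.card_eq_zero_iff.mp hcard
        simp only [Finset.univ_eq_empty, Finset.sum_empty, abs_zero]
        have := hBpos η
        positivity
  have hsum : ∑ η ∈ cube ι, B η ≤ 2 * 2 ^ N := by
    simp only [hB]
    rw [Finset.sum_add_distrib, Finset.sum_const, card_cube, Finset.sum_comm]
    have h1 : ∀ j ∈ (range (N + 1)).filter (fun j => m < j),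
        ∑ η ∈ cube ι, (1 / 2 : ℝ) ^ j * (b + (∑ i, Q v j η i ^ 2) / b)
          ≤ (1 / 2 : ℝ) ^ j * (2 * b * 2 ^ N) := by
      intro j _
      rw [← Finset.mul_sum]
      apply mul_le_mul_of_nonneg_left _ (by positivity)
      rw [Finset.sum_add_distrib, Finset.sum_const, card_cube, ← Finset.sum_div,
        Finset.sum_comm]
      have h2 : ∑ i, ∑ η ∈ cube ι, Q v j η i ^ 2 ≤ 2 ^ N * b ^ 2 := by
        calc ∑ i, ∑ η ∈ cube ι, Q v j η i ^ 2 ≤ ∑ i, ∑ ε ∈ cube ι, (v ε i) ^ 2 :=
              Finset.sum_le_sum fun i _ => Q_parseval v j i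
          _ = ∑ ε ∈ cube ι, ∑ i, (v ε i) ^ 2 := Finset.sum_comm
          _ ≤ ∑ ε ∈ cube ι, b ^ 2 := Finset.sum_le_sum fun ε hε => hvb ε hε
          _ = 2 ^ N * b ^ 2 := by
              rw [Finset.sum_const, card_cube, nsmul_eq_mul]
              push_cast
              rfl
      have h3 : (∑ i, ∑ η ∈ cube ι, Q v j η i ^ 2) / b ≤ 2 ^ N * b := by
        rw [div_le_iff₀ hb]
        linarith
      rw [nsmul_eq_mul]
      push_cast
      linarith
    have h4 : ∑ j ∈ (range (N + 1)).filter (fun j => m < j), (1 / 2 : ℝ) ^ j ≤ (1 / 2) ^ m := by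
      calc ∑ j ∈ (range (N + 1)).filter (fun j => m < j), (1 / 2 : ℝ) ^ j
          ≤ ∑ j ∈ Finset.Ico (m + 1) (N + m + 2), (1 / 2 : ℝ) ^ j := by
            apply Finset.sum_le_sum_of_subset_of_nonneg
            · intro j hj
              simp only [Finset.mem_filter, Finset.mem_range] at hj
              simp only [Finset.mem_Ico]
              omega
            · intro j _ _
              positivity
        _ ≤ (1 / 2) ^ m := by
            rw [geom_sum_Ico (by norm_num) (by omega)]
            have h5 : (0 : ℝ) ≤ (1 / 2) ^ (N + m + 2) := by positivity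
            rw [pow_succ (1 / 2 : ℝ) m]
            have h6 : ((1 / 2 : ℝ) ^ (N + m + 2) - (1 / 2) ^ m * (1 / 2)) / (1 / 2 - 1)
                = (1 / 2) ^ m - 2 * (1 / 2) ^ (N + m + 2) := by
              ring
            rw [h6]
            linarith
    calc (2 ^ N) • (1 : ℝ) + ∑ j ∈ (range (N + 1)).filter (fun j => m < j),
          ∑ η ∈ cube ι, (1 / 2 : ℝ) ^ j * (b + (∑ i, Q v j η i ^ 2) / b)
        ≤ 2 ^ N + ∑ j ∈ (range (N + 1)).filter (fun j => m < j),
            (1 / 2 : ℝ) ^ j * (2 * b * 2 ^ N) := by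
          rw [nsmul_eq_mul]
          push_cast
          have := Finset.sum_le_sum h1
          linarith
      _ = 2 ^ N + (∑ j ∈ (range (N + 1)).filter (fun j => m < j), (1 / 2 : ℝ) ^ j)
            * (2 * b * 2 ^ N) := by rw [Finset.sum_mul]
      _ ≤ 2 ^ N + (1 / 2) ^ m * (2 * b * 2 ^ N) := by
          have := mul_le_mul_of_nonneg_right h4 (by positivity : 0 ≤ 2 * b * 2 ^ N)
          linarith
      _ ≤ 2 ^ N + (1 / 2) ^ m * (2 ^ m * 2 ^ N) := by
          have h5 : 2 * b * 2 ^ N ≤ 2 ^ m * 2 ^ N :=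
            mul_le_mul_of_nonneg_right hbm (by positivity)
          have := mul_le_mul_of_nonneg_left h5 (by positivity : (0 : ℝ) ≤ (1 / 2) ^ m)
          linarith
      _ = 2 * 2 ^ N := by
          rw [← mul_assoc, ← mul_pow]
          norm_num
          ring
  calc ∑ η ∈ cube ι, pS S (Q v 1 η) ≤ ∑ η ∈ cube ι, 4 * (m : ℝ) ^ 2 * B η :=
        Finset.sum_le_sum hpt
    _ = 4 * (m : ℝ) ^ 2 * ∑ η ∈ cube ι, B η := by rw [Finset.mul_sum]
    _ ≤ 4 * (m : ℝ) ^ 2 * (2 * 2 ^ N) := mul_le_mul_of_nonneg_left hsum (by positivity)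
    _ = _ := by ring

end Pool.Agent.Lib.KCX
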