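import Pool.Agent.Lib.KCX.Defs

set_option autoImplicit false

/-!
Elementary properties of the sup norm `pS`.
-/

namespace Pool.Agent.Lib.KCX

open Finset

section general

variable {ι : Type*} [Fintype ι]

theorem pS_bdd {S : Set (ι → ℝ)} (hS : ∀ s ∈ S, ∑ i, s i ^ 2 ≤ 4) (z : ι → ℝ) :
    BddAbove (Set.range fun s : S => |∑ i, s.1 i * z i|) := by
  refine ⟨(4 + ∑ i, z i ^ 2) / 2, ?_⟩
  rintro _ ⟨s, rfl⟩
  have h1 := hS s.1 s.2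
  have h2 : |∑ i, s.1 i * z i| ≤ ∑ i, |s.1 i * z i| := Finset.abs_sum_le_sum_abs _ _
  have h3 : ∑ i, |s.1 i * z i| ≤ ∑ i, (s.1 i ^ 2 + z i ^ 2) / 2 := by
    apply Finset.sum_le_sum
    intro i _
    rw [abs_le]
    constructor
    · nlinarith [sq_nonneg (s.1 i + z i)]
    · nlinarith [sq_nonneg (s.1 i - z i)]
  have h4 : ∑ i, (s.1 i ^ 2 + z i ^ 2) / 2 = (∑ i, s.1 i ^ 2 + ∑ i, z i ^ 2) / 2 := by
    rw [← Finset.sum_add_distrib, Finset.sum_div]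
  simp only
  linarith

theorem le_pS {S : Set (ι → ℝ)} (hS : ∀ s ∈ S, ∑ i, s i ^ 2 ≤ 4) (z : ι → ℝ) {s : ι → ℝ}
    (hs : s ∈ S) : |∑ i, s i * z i| ≤ pS S z :=
  le_ciSup (pS_bdd hS z) (⟨s, hs⟩ : S)

theorem pS_nonneg (S : Set (ι → ℝ)) (z : ι → ℝ) : 0 ≤ pS S z :=
  Real.iSup_nonneg fun _ => abs_nonneg _

theorem pS_le {S : Set (ι → ℝ)} {z : ι → ℝ} {B : ℝ} (hB : 0 ≤ B)
    (h : ∀ s ∈ S, |∑ i, s i * z i| ≤ B) : pS S z ≤ B :=
  Real.iSup_le (fun s => h s.1 s.2) hB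

theorem pS_sum_le {S : Set (ι → ℝ)} (hS : ∀ s ∈ S, ∑ i, s i ^ 2 ≤ 4) {κ : Type*}
    (G : Finset κ) (z : κ → ι → ℝ) :
    pS S (fun l => ∑ g ∈ G, z g l) ≤ ∑ g ∈ G, pS S (z g) := by
  apply pS_le (Finset.sum_nonneg fun g _ => pS_nonneg S (z g))
  intro s hs
  have h1 : ∑ i, s i * ∑ g ∈ G, z g i = ∑ g ∈ G, ∑ i, s i * z g i := by
    rw [Finset.sum_comm]
    exact Finset.sum_congr rfl fun i _ => Finset.mul_sum _ _ _
  rw [h1]
  exact (Finset.abs_sum_le_sum_abs _ _).trans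
    (Finset.sum_le_sum fun g _ => le_pS hS (z g) hs)

theorem pS_smul (S : Set (ι → ℝ)) {c : ℝ} (hc : 0 ≤ c) (z : ι → ℝ) :
    pS S (fun l => c * z l) = c * pS S z := by
  unfold pS
  rw [Real.mul_iSup_of_nonneg hc]
  congr 1
  funext s
  have : ∑ i, s.1 i * (c * z i) = c * ∑ i, s.1 i * z i := by
    rw [Finset.mul_sum]
    exact Finset.sum_congr rfl fun i _ => by ring
  rw [this, abs_mul, abs_of_nonneg hc]

end general

end Pool.Agent.Lib.KCX
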