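import Pool.Agent.Lib.KCX.Defs

set_option autoImplicit false

/-!
A discrete form of Urysohn's inequality: a finite set `A` of integer vectors with at least `D^n`
elements has mean width at least `n D / 11`.
-/

namespace Pool.Agent.Lib.KCX

open Finset

theorem mem_cube {ι : Type*} [Fintype ι] [DecidableEq ι] {ε : ι → ℝ} :
    ε ∈ cube ι ↔ ∀ i, ε i = 1 ∨ ε i = -1 := by
  simp [cube, Fintype.mem_piFinset]

theorem card_cube {ι : Type*} [Fintype ι] [DecidableEq ι] :
    (cube ι).card = 2 ^ Fintype.card ι := by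
  have h : ({1, -1} : Finset ℝ).card = 2 := by
    rw [Finset.card_pair]
    norm_num
  rw [cube, Fintype.card_piFinset]
  simp [h]

theorem sum_cube_succ {n : ℕ} (f : (Fin (n + 1) → ℝ) → ℝ) :
    ∑ ε ∈ cube (Fin (n + 1)), f ε
      = ∑ ε ∈ cube (Fin n), (f (Fin.cons 1 ε) + f (Fin.cons (-1) ε)) := by
  have h1 : ∑ ε ∈ cube (Fin (n + 1)), f ε
      = ∑ p ∈ cube (Fin n) ×ˢ ({1, -1} : Finset ℝ), f (Fin.cons p.2 p.1) := by
    refine Finset.sum_nbij' (fun ε => (Fin.tail ε, ε 0)) (fun p => Fin.cons p.2 p.1) ?_ ?_ ?_ ?_ ?_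
    · intro ε hε
      rw [mem_cube] at hε
      simp only [Finset.mem_product, mem_cube, Finset.mem_insert, Finset.mem_singleton]
      exact ⟨fun i => hε i.succ, hε 0⟩
    · intro p hp
      simp only [Finset.mem_product, mem_cube, Finset.mem_insert, Finset.mem_singleton] at hp
      rw [mem_cube]
      intro i
      refine Fin.cases ?_ (fun i => ?_) i
      · simpa using hp.2
      · simpa using hp.1 i
    · intro ε _
      simp
    · intro p _
      simp
    · intro ε _
      simp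
  rw [h1, Finset.sum_product]
  refine Finset.sum_congr rfl fun ε _ => ?_
  rw [Finset.sum_pair]
  norm_num

/-- one-sided geometric sums over a finite set of integers. -/
theorem geom_half (J : Finset ℤ) (g : ℤ → ℕ) (hg : Set.InjOn g J) (r : ℝ) (h0 : 0 ≤ r)
    (h1 : r < 1) : ∑ j ∈ J, r ^ g j ≤ (1 - r)⁻¹ := by
  have h2 : ∑ j ∈ J, r ^ g j = ∑ i ∈ J.image g, r ^ i := by
    rw [Finset.sum_image]
    intro x hx y hy hxy
    exact hg hx hy hxy
  rw [h2, ← tsum_geometric_of_lt_one h0 h1]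
  exact (summable_geometric_of_lt_one h0 h1).sum_le_tsum _ (fun i _ => pow_nonneg h0 i)

theorem geom_full (J : Finset ℤ) (θ : ℝ) (hθ : 0 < θ) (μ : ℝ) :
    ∑ j ∈ J, Real.exp (-(θ * |(j : ℝ) - μ|)) ≤ 2 / (1 - Real.exp (-θ)) := by
  set r : ℝ := Real.exp (-θ) with hr
  have hr0 : 0 ≤ r := (Real.exp_pos _).le
  have hr1 : r < 1 := by
    rw [hr, Real.exp_lt_one_iff]
    linarith
  have hpow : ∀ (j : ℤ) (i : ℕ), (i : ℝ) ≤ |(j : ℝ) - μ| →
      Real.exp (-(θ * |(j : ℝ) - μ|)) ≤ r ^ i := by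
    intro j i hi
    rw [hr, ← Real.exp_nat_mul]
    apply Real.exp_le_exp.mpr
    nlinarith [mul_le_mul_of_nonneg_left hi hθ.le]
  rw [← Finset.sum_filter_add_sum_filter_not J (fun j : ℤ => ⌈μ⌉ ≤ j)]
  have hA : ∑ j ∈ J.filter (fun j : ℤ => ⌈μ⌉ ≤ j), Real.exp (-(θ * |(j : ℝ) - μ|)) ≤ (1 - r)⁻¹ := by
    refine le_trans (Finset.sum_le_sum fun j hj => hpow j (j - ⌈μ⌉).toNat ?_)
      (geom_half _ _ ?_ r hr0 hr1)
    · have hj' := (Finset.mem_filter.mp hj).2
      have h3 : (((j - ⌈μ⌉).toNat : ℕ) : ℝ) = ((j - ⌈μ⌉ : ℤ) : ℝ) := by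
        have : (((j - ⌈μ⌉).toNat : ℕ) : ℤ) = j - ⌈μ⌉ := Int.toNat_of_nonneg (by omega)
        exact_mod_cast this
      rw [h3]
      have h4 : μ ≤ (⌈μ⌉ : ℝ) := Int.le_ceil μ
      push_cast
      refine le_trans ?_ (le_abs_self _)
      linarith
    · intro x hx y hy hxy
      have hx' := (Finset.mem_filter.mp hx).2
      have hy' := (Finset.mem_filter.mp hy).2
      simp only at hxy
      omega
  have hB : ∑ j ∈ J.filter (fun j : ℤ => ¬ ⌈μ⌉ ≤ j), Real.exp (-(θ * |(j : ℝ) - μ|))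
      ≤ (1 - r)⁻¹ := by
    refine le_trans (Finset.sum_le_sum fun j hj => hpow j (⌈μ⌉ - 1 - j).toNat ?_)
      (geom_half _ _ ?_ r hr0 hr1)
    · have hj' := (Finset.mem_filter.mp hj).2
      have h3 : (((⌈μ⌉ - 1 - j).toNat : ℕ) : ℝ) = ((⌈μ⌉ - 1 - j : ℤ) : ℝ) := by
        have : (((⌈μ⌉ - 1 - j).toNat : ℕ) : ℤ) = ⌈μ⌉ - 1 - j := Int.toNat_of_nonneg (by omega)
        exact_mod_cast this
      rw [h3]
      have h4 : (⌈μ⌉ : ℝ) < μ + 1 := Int.ceil_lt_add_one μ
      push_cast
      refine le_trans ?_ (neg_le_abs _)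
      linarith
    · intro x hx y hy hxy
      have hx' := (Finset.mem_filter.mp hx).2
      have hy' := (Finset.mem_filter.mp hy).2
      simp only at hxy
      omega
  have hpos : 0 < 1 - r := by linarith
  calc _ ≤ (1 - r)⁻¹ + (1 - r)⁻¹ := add_le_add hA hB
    _ = 2 / (1 - r) := by field_simp; norm_num

theorem ury_fin (θ : ℝ) (hθ : 0 < θ) : ∀ (n : ℕ) (A : Finset (Fin n → ℤ)), A.Nonempty →
    ∃ v : (Fin n → ℝ) → (Fin n → ℤ), (∀ ε, v ε ∈ A) ∧
      (A.card : ℝ) ≤ Real.exp (θ * ((∑ ε ∈ cube (Fin n), ∑ i, ε i * (v ε i : ℝ)) / 2 ^ n))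
        * (2 / (1 - Real.exp (-θ))) ^ n := by
  intro n
  induction n with
  | zero =>
    intro A hA
    obtain ⟨a, ha⟩ := hA
    refine ⟨fun _ => a, fun _ => ha, ?_⟩
    have h1 : A.card ≤ 1 := by
      rw [Finset.card_le_one]
      intro x _ y _
      exact Subsingleton.elim _ _
    have h2 : (A.card : ℝ) ≤ 1 := by exact_mod_cast h1
    simpa using h2
  | succ n ih =>
    intro A hA
    classical
    set C : ℝ := (2 / (1 - Real.exp (-θ))) with hC
    have hCpos : 0 < C := by
      have hr1 : Real.exp (-θ) < 1 := by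
        rw [Real.exp_lt_one_iff]
        linarith
      have : 0 < 1 - Real.exp (-θ) := by linarith
      positivity
    set J : Finset ℤ := A.image (fun a => a 0) with hJ
    have hJne : J.Nonempty := hA.image _
    set B : ℤ → Finset (Fin n → ℤ) := fun j => (A.filter fun a => a 0 = j).image Fin.tail with hB
    have hBne : ∀ j ∈ J, (B j).Nonempty := by
      intro j hj
      obtain ⟨a, ha, haj⟩ := Finset.mem_image.mp hj
      exact ⟨Fin.tail a, Finset.mem_image.mpr ⟨a, Finset.mem_filter.mpr ⟨ha, haj⟩, rfl⟩⟩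
    have hBA : ∀ j, ∀ b ∈ B j, (Fin.cons j b : Fin (n + 1) → ℤ) ∈ A := by
      intro j b hb
      obtain ⟨a, ha, rfl⟩ := Finset.mem_image.mp hb
      obtain ⟨ha1, ha2⟩ := Finset.mem_filter.mp ha
      have : (Fin.cons j (Fin.tail a) : Fin (n + 1) → ℤ) = a := by
        rw [← ha2]
        exact Fin.cons_self_tail a
      rw [this]
      exact ha1
    have hcardB : ∀ j, (A.filter fun a => a 0 = j).card = (B j).card := by
      intro j
      rw [hB]
      simp only
      rw [Finset.card_image_of_injOn]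
      intro x hx y hy hxy
      have hx' := (Finset.mem_filter.mp hx).2
      have hy' := (Finset.mem_filter.mp hy).2
      rw [← Fin.cons_self_tail x, ← Fin.cons_self_tail y, hx', hy', hxy]
    have hchoose : ∀ j, ∃ v : (Fin n → ℝ) → (Fin n → ℤ), j ∈ J →
        (∀ ε, v ε ∈ B j) ∧ ((B j).card : ℝ) ≤
          Real.exp (θ * ((∑ ε ∈ cube (Fin n), ∑ i, ε i * (v ε i : ℝ)) / 2 ^ n)) * C ^ n := by
      intro j
      by_cases hj : j ∈ J
      · obtain ⟨v, hv⟩ := ih (B j) (hBne j hj)
        exact ⟨v, fun _ => hv⟩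
      · exact ⟨fun _ _ => 0, fun h => absurd h hj⟩
    choose v hv using hchoose
    set W : ℤ → ℝ := fun j => (∑ ε ∈ cube (Fin n), ∑ i, ε i * (v j ε i : ℝ)) / 2 ^ n with hW
    obtain ⟨jp, hjp, hjpmax⟩ := Finset.exists_max_image J (fun j => (j : ℝ) + W j) hJne
    obtain ⟨jm, hjm, hjmmax⟩ := Finset.exists_max_image J (fun j => -(j : ℝ) + W j) hJne
    set α : ℝ := (jp : ℝ) + W jp with hα
    set β : ℝ := -(jm : ℝ) + W jm with hβ
    refine ⟨fun ε => if ε 0 = 1 then Fin.cons jp (v jp (Fin.tail ε))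
      else Fin.cons jm (v jm (Fin.tail ε)), ?_, ?_⟩
    · intro ε
      by_cases h : ε 0 = 1
      · simp only [h, if_true]
        exact hBA jp _ ((hv jp hjp).1 _)
      · simp only [h, if_false]
        exact hBA jm _ ((hv jm hjm).1 _)
    · have hsum : (∑ ε ∈ cube (Fin (n + 1)), ∑ i, ε i *
          ((if ε 0 = 1 then (Fin.cons jp (v jp (Fin.tail ε)) : Fin (n + 1) → ℤ)
            else Fin.cons jm (v jm (Fin.tail ε))) i : ℝ)) / 2 ^ (n + 1) = (α + β) / 2 := by
        rw [sum_cube_succ]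
        have hneg : ¬ ((-1 : ℝ) = 1) := by norm_num
        simp only [Fin.sum_univ_succ, Fin.cons_zero, Fin.cons_succ, if_true, hneg, if_false,
          Fin.tail_cons]
        rw [Finset.sum_add_distrib, Finset.sum_add_distrib, Finset.sum_add_distrib]
        simp only [Finset.sum_const, card_cube, Fintype.card_fin, nsmul_eq_mul]
        rw [hα, hβ, hW]
        push_cast
        field_simp
        ring
      rw [hsum]
      have hcard : (A.card : ℝ) = ∑ j ∈ J, ((B j).card : ℝ) := by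
        rw [Finset.card_eq_sum_card_image (fun a : Fin (n + 1) → ℤ => a 0) A]
        push_cast
        refine Finset.sum_congr rfl fun j _ => ?_
        rw [← hcardB j]
      rw [hcard]
      have hWle : ∀ j ∈ J, W j ≤ (α + β) / 2 - |(j : ℝ) - (α - β) / 2| := by
        intro j hj
        have h1 := hjpmax j hj
        have h2 := hjmmax j hj
        rcases abs_cases ((j : ℝ) - (α - β) / 2) with ⟨h, _⟩ | ⟨h, _⟩ <;> rw [h] <;> linarith
      calc ∑ j ∈ J, ((B j).card : ℝ)
          ≤ ∑ j ∈ J, Real.exp (θ * ((α + β) / 2)) * C ^ n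
              * Real.exp (-(θ * |(j : ℝ) - (α - β) / 2|)) := by
            refine Finset.sum_le_sum fun j hj => ?_
            refine ((hv j hj).2).trans ?_
            have h1 : Real.exp (θ * W j) ≤ Real.exp (θ * ((α + β) / 2))
                * Real.exp (-(θ * |(j : ℝ) - (α - β) / 2|)) := by
              rw [← Real.exp_add]
              apply Real.exp_le_exp.mpr
              have := mul_le_mul_of_nonneg_left (hWle j hj) hθ.le
              linarith
            calc Real.exp (θ * W j) * C ^ n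
                ≤ (Real.exp (θ * ((α + β) / 2)) * Real.exp (-(θ * |(j : ℝ) - (α - β) / 2|)))
                  * C ^ n := mul_le_mul_of_nonneg_right h1 (by positivity)
              _ = _ := by ring
        _ = Real.exp (θ * ((α + β) / 2)) * C ^ n
              * ∑ j ∈ J, Real.exp (-(θ * |(j : ℝ) - (α - β) / 2|)) := by
            rw [Finset.mul_sum]
        _ ≤ Real.exp (θ * ((α + β) / 2)) * C ^ n * C := by
            exact mul_le_mul_of_nonneg_left (geom_full J θ hθ _) (by positivity)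
        _ = _ := by ring

/-- transfer to an arbitrary finite index set. -/
theorem ury_gen {ι : Type*} [Fintype ι] [DecidableEq ι] (θ : ℝ) (hθ : 0 < θ)
    (A : Finset (ι → ℤ)) (hA : A.Nonempty) :
    ∃ v : (ι → ℝ) → (ι → ℤ), (∀ ε, v ε ∈ A) ∧
      (A.card : ℝ) ≤ Real.exp (θ * ((∑ ε ∈ cube ι, ∑ i, ε i * (v ε i : ℝ))
        / 2 ^ Fintype.card ι)) * (2 / (1 - Real.exp (-θ))) ^ Fintype.card ι := by
  classical
  set n := Fintype.card ι with hn
  let e : ι ≃ Fin n := Fintype.equivFin ι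
  set A' : Finset (Fin n → ℤ) := A.image (fun a => a ∘ e.symm) with hA'
  have hinj : Function.Injective (fun a : ι → ℤ => a ∘ e.symm) :=
    e.symm.surjective.injective_comp_right
  have hcard : A'.card = A.card := Finset.card_image_of_injective _ hinj
  obtain ⟨w, hw, hwc⟩ := ury_fin θ hθ n A' (hA.image _)
  refine ⟨fun ε => w (ε ∘ e.symm) ∘ e, ?_, ?_⟩
  · intro ε
    obtain ⟨a, ha, hae⟩ := Finset.mem_image.mp (hw (ε ∘ e.symm))
    have : w (ε ∘ e.symm) ∘ e = a := by
      rw [← hae]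
      funext i
      simp
    show w (ε ∘ e.symm) ∘ e ∈ A
    rw [this]
    exact ha
  · rw [← hcard]
    refine hwc.trans (le_of_eq ?_)
    congr 4
    symm
    refine Finset.sum_nbij' (fun ε => ε ∘ e.symm) (fun ε => ε ∘ e) ?_ ?_ ?_ ?_ ?_
    · intro ε hε
      rw [mem_cube] at hε ⊢
      intro i
      exact hε _
    · intro ε hε
      rw [mem_cube] at hε ⊢
      intro i
      exact hε _
    · intro ε _
      funext i
      simp
    · intro ε _
      funext i
      simp
    · intro ε _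
      rw [← Equiv.sum_comp e]
      refine Finset.sum_congr rfl fun i _ => ?_
      simp

theorem urysohn {ι : Type*} [Fintype ι] [DecidableEq ι] (A : Finset (ι → ℤ)) (D : ℝ)
    (hD : 11 ≤ D) (hA : D ^ Fintype.card ι ≤ (A.card : ℝ)) :
    ∃ v : (ι → ℝ) → (ι → ℤ), (∀ ε, v ε ∈ A) ∧
      (Fintype.card ι : ℝ) * D / 11 * 2 ^ Fintype.card ι
        ≤ ∑ ε ∈ cube ι, ∑ i, ε i * (v ε i : ℝ) := by
  have hDpos : 0 < D := by linarith
  set n := Fintype.card ι with hn
  have hApos : (0 : ℝ) < A.card := lt_of_lt_of_le (by positivity) hA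
  have hAne : A.Nonempty := by
    rw [← Finset.card_pos]
    exact_mod_cast hApos
  set θ : ℝ := 11 / D with hθdef
  have hθ : 0 < θ := by positivity
  have hθ1 : θ ≤ 1 := by
    rw [hθdef, div_le_one hDpos]
    exact hD
  obtain ⟨v, hv, hvc⟩ := ury_gen θ hθ A hAne
  refine ⟨v, hv, ?_⟩
  set w : ℝ := (∑ ε ∈ cube ι, ∑ i, ε i * (v ε i : ℝ)) / 2 ^ n with hw
  have hwmul : ∑ ε ∈ cube ι, ∑ i, ε i * (v ε i : ℝ) = w * 2 ^ n := by
    rw [hw]
    field_simp
  -- the constant
  have hC : 2 / (1 - Real.exp (-θ)) ≤ D * Real.exp (-1) := by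
    have h1 : Real.exp (-θ) ≤ 1 - θ + θ ^ 2 / 2 := by
      have := Real.abs_exp_sub_one_sub_id_le (x := -θ) (by rw [abs_neg, abs_of_pos hθ]; exact hθ1)
      have h2 := (abs_le.mp this).2
      nlinarith [Real.quadratic_le_exp_of_nonneg (x := θ) hθ.le, Real.exp_pos (-θ),
        Real.exp_neg θ, Real.add_one_le_exp θ, mul_inv_cancel₀ (Real.exp_pos θ).ne']
    have h3 : θ / 2 ≤ 1 - Real.exp (-θ) := by nlinarith
    have h4 : 2 / (1 - Real.exp (-θ)) ≤ 2 / (θ / 2) := by
      apply div_le_div_of_nonneg_left (by norm_num) (by positivity) h3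
    refine h4.trans ?_
    rw [hθdef, Real.exp_neg]
    have he : Real.exp 1 ≤ 11 / 4 := by
      have := Real.exp_one_lt_d9
      linarith
    have hepos : 0 < Real.exp 1 := Real.exp_pos _
    rw [← div_eq_mul_inv, le_div_iff₀ hepos]
    have h5 : 2 / (11 / D / 2) = 4 * D / 11 := by
      field_simp
      ring
    rw [h5]
    nlinarith
  have hCpos : 0 < 2 / (1 - Real.exp (-θ)) := by
    have hr1 : Real.exp (-θ) < 1 := by
      rw [Real.exp_lt_one_iff]
      linarith
    have : 0 < 1 - Real.exp (-θ) := by linarith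
    positivity
  have h6 : D ^ n ≤ Real.exp (θ * w) * (D * Real.exp (-1)) ^ n := by
    refine hA.trans (hvc.trans ?_)
    exact mul_le_mul_of_nonneg_left (pow_le_pow_left₀ hCpos.le hC n) (Real.exp_pos _).le
  have h7 : 1 ≤ Real.exp (θ * w - n) := by
    have h8 : Real.exp (θ * w) * (D * Real.exp (-1)) ^ n = D ^ n * Real.exp (θ * w - n) := by
      rw [mul_pow, ← Real.exp_nat_mul, Real.exp_sub, mul_neg, mul_one, Real.exp_neg]
      ring
    rw [h8] at h6
    have hDn : 0 < D ^ n := by positivity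
    exact le_of_mul_le_mul_left (by simpa using h6) hDn
  have h9 : (n : ℝ) ≤ θ * w := by
    have := Real.one_le_exp_iff.mp h7
    linarith
  rw [hwmul]
  have h10 : (n : ℝ) * D / 11 ≤ w := by
    rw [hθdef] at h9
    have : 11 / D * w = 11 * w / D := by ring
    rw [this, le_div_iff₀ hDpos] at h9
    linarith
  exact mul_le_mul_of_nonneg_right h10 (by positivity)

end Pool.Agent.Lib.KCX
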